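import Pool.Agent.W_448kr_h10.KrA
import Pool.Agent.W_448j6_h22.KbK

/-!
# MP_448cb3_co, case B, `j = 13`: the functional `TT` of the window `j` is nonnegative for the rows [DL]
with four sites and two single ends, and for the natural parts (helper53)
-/

namespace Pool.Agent.GaussPoset.EK

set_option linter.unusedSectionVars false

open Finset Win St Polynomial Wd Win.W4

universe u

variable {P : Type u} [Fintype P] [PartialOrder P] [DecidableEq P] {r i j : ℕ}

variable {m : ℕ} {x : ℕ → P} {c : ℕ → ℤ} {β : ℤ} {t : Tops P}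

/-- [DL] with four sites, two single ends: `TT` is nonnegative -/
theorem NJ.open3_TT (h : NJ P r j) (hj : 2 ≤ j) (B : RowB P j t 3 x c β) (hβ : β = 0)
    (c0 : c 0 = 1) (c1 : c 1 = -1) (c2 : c 2 = 0) (u3 : (uc (x 3)).card = 1)
    (hU : UE j (cext (j + 1) (topOf : P → Tops P) t) x 2 = ∅) : 0 ≤ TT j t := by
  classical
  obtain ⟨K, psi, R⟩ := exists_red P j
  have hc : ∀ k, 2 ≤ k → k < 3 → c k = 0 := fun k h1 h2 => by
    obtain rfl : k = 2 := by omega
    exact c2
  obtain ⟨w, v, D⟩ := NJ.dlg h hj R B le_rfl hβ c0 c1 hc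
  obtain ⟨n, h1, h2, h3, h4⟩ := D.L_low3 rfl hU
  have hs := NJ.small_dl h hj B hc
  have g2 := D.deg2
  have g3 := D.deg3' rfl
  have b2 := D.W.dc_le (k := 2) (by omega)
  have b3 := D.W.dc_le (k := 3) (by omega)
  have q2 : (pen (x 2)).card = 0 ∨ (pen (x 2)).card = 1 := by omega
  have q3 : (pen (x 3)).card = 0 ∨ (pen (x 3)).card = 1 := by omega
  rw [NJ.TT_small h hj R hs]
  unfold W4.Tv
  rw [h3]
  rw [u3] at h4
  have hn : n = 0 ∨ n = 1 ∨ n = 2 := by omega
  rcases q2 with q2 | q2 <;> rw [q2] at h4 <;> rcases q3 with q3 | q3 <;> rw [q3] at h4 <;>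
    rcases hn with rfl | rfl | rfl <;> push_cast at h4 ⊢ <;> linarith

/-- natural parts: `TT` is nonnegative -/
theorem NJ.nat_TT (h : NJ P r j) (hj : 2 ≤ j) (B : RowB P j t m x c β)
    (h0 : ∀ k, k < m → c k = 0) (hb : β = 0) : 0 ≤ TT j t := by
  classical
  obtain ⟨K, psi, R⟩ := exists_red P j
  have hn := B.nat_of h h0 hb
  have Q := NJ.nat4 h hj R hn
  have hs : Small j (topOf : P → Tops P) t := by
    rcases B.small h.g.H h.split with h2 | h2
    · exact h2
    · exfalso
      obtain ⟨h3, -, h4, -⟩ := h2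
      rw [h0 0 (by omega)] at h4
      norm_num at h4
  have hw : wv j (cext (j + 1) (topOf : P → Tops P) t) = 0 := by
    unfold wv I2.w3
    have h2 := Q.prof.mid 3 (by norm_num)
    apply I2.coeff_zero_of_dvd
      (a := (st j (cext (j + 1) (topOf : P → Tops P) t)).card + 1) _ (by omega)
    rw [pow_succ', pow_two, mul_assoc]
    exact mul_dvd_mul_left _ h2
  have hF := NJ.nat_F h hj hn
  rw [NJ.TT_small h hj R hs]
  unfold W4.Tv Lv I2.Q4
  unfold Fn at hF
  have hw' := hw
  unfold wv at hw'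
  rw [hw, hw']
  linarith

end Pool.Agent.GaussPoset.EK
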