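import Pool.Agent.W_448op_h53.R3a
import Pool.Agent.W_448j6_h22.KbI

/-!
# MP_448cb3_co, case B, `j = 13`: the functional `TT` of the window `j` of a rotated row with four sites
is at least two (helper53)
-/

namespace Pool.Agent.GaussPoset.Win.W4

set_option linter.unusedSectionVars false

open Finset
open Pool.Agent.GaussPoset.Win.SO (PN vp con on mem_PN vp_PD vp_PU)

universe u

variable {P : Type u} [Fintype P] [PartialOrder P] [DecidableEq P] {r i : ℕ}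
variable {psi : P → P} {C K : Finset P} {w v : P} {x : ℕ → P}

/-- the arithmetic -/
lemma R3t_ar (n0 n1 n2 n2' n3 p1 : ℕ) (c1 c2 z s : ℤ) (h0 : n0 + n2' ≤ 1) (h1 : n1 ≤ 2)
    (h2 : n2 ≤ 2) (hp : p1 ≤ 1) (hq : n2' = 1 → p1 = 0)
    (hc1 : c1 ≤ 2 * s + n1 * (n1 - 1)) (hs : s ≤ if n1 = 0 then 0 else if n1 = 1 then 2 else 3)
    (hc2 : (n2 : ℤ) * (n2 - 1) ≤ c2) (hz : 0 ≤ z) :
    2 ≤ ((-(n0 : ℤ) + n1 + (n2 - n2') + n3) + (-(n0 : ℤ) + n1 + (n2 - n2') + n3) ^ 2 -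
      2 * (-(n0 : ℤ)) * (n2 - n2') - 2 * n1 * n3 -
      2 * p1 * (-(n0 : ℤ) + n1 + (n2 - n2') + n3) + ((p1 : ℤ) ^ 2 - p1) + 2 + 2 * 1 +
      2 * z - c1 + c2 - 2 * (-(n0 : ℤ) + (n2 - n2') - n1 - n3) -
      (n1 - (n2 - n2') - 1) * (4 + 2 * 1 + 2 * p1)) +
      6 * ((n1 : ℤ) - (n2 - n2') - 1) + 2 * ((n1 : ℤ) - (n2 - n2') - 1) ^ 2 := by
  have q3 : n3 = 0 ∨ n3 = 1 ∨ 2 ≤ n3 := by omega
  have f3 : (4 : ℤ) * n3 - 4 ≤ (n3 : ℤ) ^ 2 := by nlinarith [sq_nonneg ((n3 : ℤ) - 2)]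
  have q0 : (n0 = 0 ∧ n2' = 0) ∨ (n0 = 1 ∧ n2' = 0) ∨ (n0 = 0 ∧ n2' = 1 ∧ p1 = 0) := by omega
  have q1 : n1 = 0 ∨ n1 = 1 ∨ n1 = 2 := by omega
  have q2 : n2 = 0 ∨ n2 = 1 ∨ n2 = 2 := by omega
  have qp : p1 = 0 ∨ p1 = 1 := by omega
  rcases q0 with ⟨rfl, rfl⟩ | ⟨rfl, rfl⟩ | ⟨rfl, rfl, rfl⟩
  · rcases q1 with rfl | rfl | rfl <;> rcases q2 with rfl | rfl | rfl <;>
      rcases qp with rfl | rfl <;> norm_num at hc1 hs hc2 ⊢ <;>
      rcases q3 with rfl | rfl | q3 <;> (norm_num; linarith)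
  · rcases q1 with rfl | rfl | rfl <;> rcases q2 with rfl | rfl | rfl <;>
      rcases qp with rfl | rfl <;> norm_num at hc1 hs hc2 ⊢ <;>
      rcases q3 with rfl | rfl | q3 <;> (norm_num; linarith)
  · rcases q1 with rfl | rfl | rfl <;> rcases q2 with rfl | rfl | rfl <;>
      norm_num at hc1 hs hc2 ⊢ <;>
      rcases q3 with rfl | rfl | q3 <;> (norm_num; linarith)

/-- THE FUNCTIONAL OF THE WINDOW `j` of a rotated row with four sites -/
theorem Rg.Tt_ge (h : Rg r i K psi C w v x) (hp0 : pen (x 0) ≠ ∅)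
    (hp1 : UE i C x 2 ≠ ∅ → pen (x 1) = ∅) (hU : ∀ z ∈ UE i C x 2, ch i C z ≤ 0) :
    2 ≤ Lv i C + 6 * wv i C + 2 * wv i C ^ 2 := by
  classical
  have W := h.W
  have c1 : CH i C x 1 ≤ 2 * ∑ a ∈ DE i C x 1, ((pen a).card : ℤ) +
      (DE i C x 1).card * ((DE i C x 1).card - 1) := by
    rw [W.CH_split, W.sum_DE (by omega) h.dcv12, h.UE1, Finset.sum_empty, add_zero, mul_sum]
  obtain ⟨b1, b2⟩ := W.sum_pen_le (k := 1) (by omega) h.dcv12
  obtain ⟨b3, -⟩ := W.sum_pen_le (k := 2) (by omega) h.dcv23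
  have c2 : ((DE i C x 2).card : ℤ) * ((DE i C x 2).card - 1) ≤ CH i C x 2 := by
    rw [W.CH_split, W.sum_DE (by omega) h.dcv23]
    have g1 : 0 ≤ ∑ a ∈ DE i C x 2, (2 * ((pen a).card : ℤ)) :=
      sum_nonneg fun a _ => by positivity
    have g2 : 0 ≤ ∑ z ∈ UE i C x 2, vp i z * ch i C z := by
      refine sum_nonneg fun z hz => ?_
      rw [vp_PU (mem_UE.1 hz).2.1]
      have := hU z hz
      linarith
    linarith
  have u02 := W.ue_sum (i := i) (C := C) 0 2 (by omega) (by omega) (by omega)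
  have h9 := card_le_card (T4_subset i C)
  have hp0' := W.dc_le (k := 0) (by omega)
  have hd0 := h.deg0
  have hd1 := h.deg1
  have hp1' := W.dc_le (k := 1) (by omega)
  have p0 : (pen (x 0)).card = 1 := by
    have := card_pos.2 (nonempty_iff_ne_empty.2 hp0)
    omega
  have e2 : NE i C x 2 = ((DE i C x 2).card : ℤ) - (UE i C x 2).card := rfl
  have hz : (0 : ℤ) ≤ (Z4 i C).card - (T4 i C).card := by
    have : ((T4 i C).card : ℤ) ≤ (Z4 i C).card := by exact_mod_cast h9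
    linarith
  have key := R3t_ar (UE i C x 0).card (DE i C x 1).card (DE i C x 2).card (UE i C x 2).card
    (DE i C x 3).card (pen (x 1)).card (CH i C x 1) (CH i C x 2)
    ((Z4 i C).card - (T4 i C).card) (∑ a ∈ DE i C x 1, ((pen a).card : ℤ)) u02 b1 b3 (by omega)
    (fun h1 => by
      rw [hp1 (fun h2 => by rw [h2, card_empty] at h1; omega), card_empty]) c1 b2 c2 hz
  rw [h.w3_eq, h.L_form, h.NE0, h.NE1, e2, h.NE3, p0]
  push_cast
  linarith

end Pool.Agent.GaussPoset.Win.W4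

namespace Pool.Agent.GaussPoset.EK

set_option linter.unusedSectionVars false

open Finset Win St Polynomial Wd Win.W4

universe u

variable {P : Type u} [Fintype P] [PartialOrder P] [DecidableEq P] {r i j : ℕ}

variable {x : ℕ → P} {c : ℕ → ℤ} {β : ℤ} {t : Tops P} {lo hi : ℕ → ℕ} {e : ℕ → ℕ → P}

/-- a rotated row with four sites: `TT` is at least two -/
theorem NJ.ring_TT (h : NJ P r j) (hj : 2 ≤ j) (B : RowB P j t 3 x c β) (hβ : β = 1)
    (c0 : c 0 = -1) (c1 : c 1 = 0) (c2 : c 2 = 0) (C : Cp.Comp j (t : P) lo hi e)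
    (S : Shape j lo hi) (hp0 : pen (x 0) ≠ ∅) : 2 ≤ TT j t := by
  classical
  have hb : β ≠ 0 := by rw [hβ]; norm_num
  obtain ⟨K, psi, R⟩ := exists_red P j
  obtain ⟨x', hx'⟩ : ∃ x' : ℕ → P, x' = fun k => if k = 4 then x 0 else x k := ⟨_, rfl⟩
  have hxk : ∀ k, k ≤ 3 → x' k = x k := by
    intro k hk
    rw [hx']
    show (if k = 4 then x 0 else x k) = x k
    rw [if_neg (by omega)]
  have hx4 : x' 4 = x' 0 := by
    rw [hxk 0 (by omega), hx']
    show (if 4 = 4 then x 0 else x 4) = x 0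
    rw [if_pos rfl]
  have B' := B.congr hxk
  obtain ⟨w, v, D⟩ := NJ.rg h hj R B' hβ c0 c1 c2 hx4
  have hed : ∀ k, k ≤ 2 → ed x' k = ed x k := by
    intro k hk
    unfold ed
    rw [hxk k (by omega), hxk (k + 1) (by omega)]
  have hUE : UE j (cext (j + 1) (topOf : P → Tops P) t) x' 2 =
      UE j (cext (j + 1) (topOf : P → Tops P) t) x 2 := by
    unfold UE
    rw [hed 2 le_rfl]
  have key := D.Tt_ge (by rw [hxk 0 (by omega)]; exact hp0)
    (by
      rw [hUE, hxk 1 (by omega)]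
      exact fun hU => NJ.pen_one_zero h hj B hb C S hU)
    (by
      intro z hz
      obtain ⟨hzC, hzP, -⟩ := mem_UE.1 hz
      have h1 := D.W.ch_PU hzP hzC
      rw [hUE] at hz
      rw [NJ.upen_zero h hj B C S hz, card_empty] at h1
      push_cast at h1
      linarith)
  have hsm : Small j (topOf : P → Tops P) t := by
    refine (B.small h.g.H h.split).resolve_right fun hp => ?_
    have := hp.1
    omega
  rw [NJ.TT_small h hj R hsm]
  unfold W4.Tv
  linarith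

end Pool.Agent.GaussPoset.EK
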