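import Pool.Agent.W_448n13_h16.NtB
import Pool.Agent.W_448n13_h53.NtR
import Pool.Agent.W_448n13_h53.NtO

/-!
# MP_448cb3_co, case B, `j = 13`: the leaves HNatT, HOpen3T, HRing3T (helper53)
-/

namespace Pool.Agent.GaussPoset.EK

set_option linter.unusedSectionVars false

open Finset Win St Polynomial Wd Win.W4

universe u

/-- the leaf HNatT -/
theorem hnatT (P : Type u) [Fintype P] [PartialOrder P] [DecidableEq P] : HNatT P := by
  intro r i t m x c β h13 hC B hβ hc
  exact NJ.nat_TT hC.nj (by omega) B hc hβ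

/-- the leaf HOpen3T -/
theorem hopen3T (P : Type u) [Fintype P] [PartialOrder P] [DecidableEq P] : HOpen3T P := by
  intro r i t x c β lo hi e a h13 hC B C S L hI u0 u3 hU hor
  obtain ⟨hb, c0, c1, hc⟩ := hI
  exact NJ.open3_TT hC.nj (by omega) B hb c0 c1 (hc 2 le_rfl (by omega)) u3 hU

/-- the leaf HRing3T -/
theorem hring3T (P : Type u) [Fintype P] [PartialOrder P] [DecidableEq P] : HRing3T P := by
  intro r i t x c β lo hi e a h13 hC B C S L hβ c0 c1 u0 u3 hp0 hor
  exact ⟨ring3_ge_four hC.nj (by omega) B C S L hβ c0 c1 u0 u3 hp0 hor,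
    NJ.ring_TT hC.nj (by omega) B hβ c0 (c1 1 le_rfl (by omega)) (c1 2 (by omega) (by omega))
      C S hp0⟩

end Pool.Agent.GaussPoset.EK
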